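import Pool.Agent.E8helper11.FL.Stm

/-!
MP_edbb78_co, part LADDER: the fat ladder from the pieces.
-/

set_option autoImplicit false

open SimpleGraph

namespace Pool.Agent.E8helper89.FL

open FL11

variable {V : Type} {G : SimpleGraph V} {p : ℕ → V} {l K N : ℕ} {D : ℕ → Set V}

/-! ### general lemmas -/

theorem union_conn (hc : ∀ j < N, (G.induce (D j)).Connected)
    (he : ∀ j, j + 1 < N → ∃ a ∈ D j, ∃ b ∈ D (j + 1), G.Adj a b) (a : ℕ) :
    ∀ n, a + n < N → (G.induce {z | ∃ e, a ≤ e ∧ e ≤ a + n ∧ z ∈ D e}).Connected := by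
  intro n
  induction n with
  | zero =>
    intro h
    have e1 : {z | ∃ e, a ≤ e ∧ e ≤ a + 0 ∧ z ∈ D e} = D a := by
      ext z
      constructor
      · rintro ⟨e, h1, h2, h3⟩
        obtain rfl : e = a := by omega
        exact h3
      · intro hz
        exact ⟨a, le_rfl, by omega, hz⟩
    rw [e1]
    exact hc a (by omega)
  | succ n ih =>
    intro h
    have h1 := ih (by omega)
    obtain ⟨x, hx, y, hy, hxy⟩ := he (a + n) (by omega)
    have h2 := hc (a + n + 1) (by omega)
    have e1 : {z | ∃ e, a ≤ e ∧ e ≤ a + (n + 1) ∧ z ∈ D e} =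
        {z | ∃ e, a ≤ e ∧ e ≤ a + n ∧ z ∈ D e} ∪ D (a + n + 1) := by
      ext z
      constructor
      · rintro ⟨e, h3, h4, h5⟩
        by_cases h6 : e ≤ a + n
        · exact Or.inl ⟨e, h3, h6, h5⟩
        · right
          obtain rfl : e = a + n + 1 := by omega
          exact h5
      · rintro (⟨e, h3, h4, h5⟩ | h5)
        · exact ⟨e, h3, by omega, h5⟩
        · exact ⟨a + n + 1, by omega, by omega, h5⟩
    rw [e1]
    exact connected_induce_union h1.preconnected h2.preconnected
      ⟨a + n, by omega, le_rfl, hx⟩ hy hxy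

theorem seg_walk (hp : IsoSeq G p l) (a : ℕ) : ∀ n, a + n ≤ l →
    ∃ q : G.Walk (p a) (p (a + n)), q.length = n ∧
      ∀ z, z ∈ q.support ↔ ∃ m, a ≤ m ∧ m ≤ a + n ∧ z = p m := by
  intro n
  induction n with
  | zero =>
    intro _
    refine ⟨Walk.nil, rfl, fun z => ?_⟩
    rw [Walk.support_nil, List.mem_singleton]
    constructor
    · intro h
      exact ⟨a, le_rfl, le_rfl, h⟩
    · rintro ⟨m, h1, h2, rfl⟩
      obtain rfl : m = a := by omega
      rfl
  | succ n ih =>
    intro h
    obtain ⟨q, hq, hs⟩ := ih (by omega)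
    have hadj : G.Adj (p (a + n)) (p (a + n + 1)) := by
      rw [← dist_eq_one_iff_adj, hp (a + n) (a + n + 1) (by omega) h]
      omega
    refine ⟨q.concat hadj, by rw [Walk.length_concat, hq], fun z => ?_⟩
    rw [Walk.support_concat, List.mem_append, hs, List.mem_singleton]
    constructor
    · rintro (⟨m, h1, h2, rfl⟩ | rfl)
      · exact ⟨m, h1, by omega, rfl⟩
      · exact ⟨a + n + 1, by omega, by omega, rfl⟩
    · rintro ⟨m, h1, h2, rfl⟩
      by_cases h3 : m ≤ a + n
      · exact Or.inl ⟨m, h1, h3, rfl⟩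
      · right
        obtain rfl : m = a + n + 1 := by omega
        rfl

theorem seg_path (hp : IsoSeq G p l) {a b : ℕ} (hab : a ≤ b) (hb : b ≤ l) :
    ∃ q : G.Walk (p a) (p b), q.IsPath ∧ ∀ z, z ∈ q.support ↔ ∃ m, a ≤ m ∧ m ≤ b ∧ z = p m := by
  obtain ⟨n, rfl⟩ := Nat.exists_eq_add_of_le hab
  obtain ⟨q, hq, hs⟩ := seg_walk hp a n hb
  refine ⟨q, q.isPath_of_length_eq_dist ?_, hs⟩
  rw [hq, hp a (a + n) hab hb]
  omega

theorem iso_inj (hp : IsoSeq G p l) {i j : ℕ} (hi : i ≤ l) (hj : j ≤ l) (h : p i = p j) :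
    i = j := by
  rcases le_total i j with h1 | h1
  · have := hp i j h1 hj
    rw [h, dist_self] at this
    omega
  · have := hp j i h1 hi
    rw [h, dist_self] at this
    omega

theorem iso_le (hp : IsoSeq G p l) {i j : ℕ} (hi : i ≤ l) (hj : j ≤ l) :
    j ≤ i + G.dist (p i) (p j) ∧ i ≤ j + G.dist (p i) (p j) := by
  rcases le_total i j with h1 | h1
  · have := hp i j h1 hj
    omega
  · have := hp j i h1 hi
    rw [dist_comm] at this
    omega

theorem geo (hc : G.Connected) (a b : V) :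
    ∃ w : G.Walk a b, w.length = G.dist a b ∧
      ∀ z ∈ w.support, G.dist a z + G.dist z b = G.dist a b := by
  classical
  obtain ⟨w, hw⟩ := hc.exists_walk_length_eq_dist a b
  refine ⟨w, hw, fun z hz => ?_⟩
  have h1 := dist_le (w.takeUntil z hz)
  have h2 := dist_le (w.dropUntil z hz)
  have h3 := congrArg Walk.length (w.take_spec hz)
  rw [Walk.length_append] at h3
  have h4 := hc.dist_triangle (u := a) (v := z) (w := b)
  omega

/-! ### the distances -/

theorem F1 (hc : G.Connected) (hK : 1 ≤ K) (hD : Pieces G p l K (12 * K) N D) {e e' : ℕ}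
    (h : e + 2 ≤ e') (h' : e' < N) {a b : V} (ha : a ∈ D e) (hb : b ∈ D e') :
    K ≤ G.dist a b := by
  by_cases hs : Sp G p l K a
  · have := hD.sep1 e e' h h' a ha b hb hs
    omega
  · by_contra hlt
    push Not at hlt
    obtain ⟨w, hw, hgeo⟩ := geo hc a b
    have h2 : 2 * K < w.length := by
      refine hD.sep2 e e' h h' a ha b hb w (fun z hz i hi => ?_)
      have h3 : 2 * K ≤ G.dist a (p i) := by
        by_contra h4
        exact hs ⟨i, hi, by omega⟩
      have h4 := hc.dist_triangle (u := a) (v := z) (w := p i)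
      have h5 := hgeo z hz
      omega
    omega

/-- the hub of number `c` -/
def Hub (D : ℕ → Set V) (c : ℕ) : Set V := {z | ∃ e, 6 * c ≤ e ∧ e ≤ 6 * c + 4 ∧ z ∈ D e}

/-- the data of the rung of number `c` -/
structure RD (G : SimpleGraph V) (p : ℕ → V) (l K : ℕ) (D : ℕ → Set V) (c : ℕ) (x : V) (i : ℕ)
    (R : Set V) : Prop where
  xm : x ∈ D (6 * c + 2)
  xs : Sp G p l K x
  il : i ≤ l
  near : G.dist x (p i) < 2 * K
  nx : ∀ i' ≤ l, G.dist x (p i) ≤ G.dist x (p i')
  path : ∃ (u v : V) (q : G.Walk u v), q.IsPath ∧ R = {z | z ∈ q.support} ∧ u ∈ Hub D c ∧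
    v = p i ∧ ∀ z ∈ q.support, z ∈ Hub D c → z = u
  on : ∀ z ∈ R, ∀ i' ≤ l, z = p i' → i' = i
  geo : ∀ z ∈ R, G.dist x z + G.dist z (p i) = G.dist x (p i)
  nz : ∀ z ∈ R, ∀ i' ≤ l, G.dist z (p i) ≤ G.dist z (p i')

theorem F2 (hc : G.Connected) (hK : 1 ≤ K) (hD : Pieces G p l K (12 * K) N D) {c i e : ℕ} {x : V}
    {R : Set V} (hR : RD G p l K D c x i R) (hcN : 6 * c + 2 < N) (heN : e < N)
    (he : e + 2 ≤ 6 * c + 2 ∨ 6 * c + 2 + 2 ≤ e) {z y : V} (hz : z ∈ R) (hy : y ∈ D e) :
    K ≤ G.dist z y := by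
  have hxz := hR.geo z hz
  have hn := hR.near
  have ht := hc.dist_triangle (u := x) (v := z) (w := y)
  rcases he with he | he
  · by_cases hs : Sp G p l K y
    · have h1 := hD.sep1 e (6 * c + 2) he hcN y hy x hR.xm hs
      rw [dist_comm] at h1
      omega
    · by_contra hlt
      push Not at hlt
      rw [dist_comm] at hlt
      have h3 : ∀ j ≤ l, 2 * K ≤ G.dist y (p j) := by
        intro j hj
        by_contra h4
        exact hs ⟨j, hj, by omega⟩
      have hzi : K < G.dist z (p i) := by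
        have h4 := hc.dist_triangle (u := y) (v := z) (w := p i)
        have h5 := h3 i hR.il
        omega
      obtain ⟨w1, hw1, hg1⟩ := Pool.Agent.E8helper89.FL.geo hc y z
      obtain ⟨w2, hw2, hg2⟩ := Pool.Agent.E8helper89.FL.geo hc z x
      have h6 : 2 * K < (w1.append w2).length := by
        refine hD.sep2 e (6 * c + 2) he hcN y hy x hR.xm _ (fun v hv j hj => ?_)
        rw [Walk.mem_support_append_iff] at hv
        rcases hv with hv | hv
        · have h4 := hc.dist_triangle (u := y) (v := v) (w := p j)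
          have h5 := hg1 v hv
          have h7 := h3 j hj
          omega
        · have h4 := hc.dist_triangle (u := x) (v := v) (w := p j)
          have h5 := hg2 v hv
          have h7 := hR.nx j hj
          rw [dist_comm (u := v) (v := x), dist_comm (u := z) (v := x)] at h5
          omega
      rw [Walk.length_append, hw1, hw2, dist_comm (u := z) (v := x)] at h6
      omega
  · have h1 := hD.sep1 (6 * c + 2) e he heN x hR.xm y hy hR.xs
    omega

theorem F3' (hc : G.Connected) (hp : IsoSeq G p l) (hD : Pieces G p l K (12 * K) N D)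
    {c c' i i' : ℕ} {x x' : V}
    {R R' : Set V} (hR : RD G p l K D c x i R) (hR' : RD G p l K D c' x' i' R')
    (hcN : 6 * c' + 2 < N) (hlt : c < c') : i + 8 * K < i' ∨ i' + 8 * K < i := by
  have h1 := hD.sep1 (6 * c + 2) (6 * c' + 2) (by omega) hcN x hR.xm x' hR'.xm hR.xs
  have h2 := hc.dist_triangle (u := x) (v := p i) (w := x')
  have h3 := hc.dist_triangle (u := p i) (v := p i') (w := x')
  rw [dist_comm (u := p i') (v := x')] at h3
  have h4 := hR.near
  have h5 := hR'.near
  have h6 : 8 * K < G.dist (p i) (p i') := by omega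
  rcases le_total i i' with h7 | h7
  · have := hp i i' h7 hR'.il
    omega
  · have := hp i' i h7 hR.il
    rw [dist_comm] at this
    omega

theorem F3 (hc : G.Connected) (hp : IsoSeq G p l) (hD : Pieces G p l K (12 * K) N D)
    {c c' i i' : ℕ} {x x' : V}
    {R R' : Set V} (hR : RD G p l K D c x i R) (hR' : RD G p l K D c' x' i' R')
    (hcN : 6 * c + 2 < N) (hcN' : 6 * c' + 2 < N) (hne : c ≠ c') :
    i + 8 * K < i' ∨ i' + 8 * K < i := by
  rcases lt_or_gt_of_ne hne with h | h
  · exact F3' hc hp hD hR hR' hcN' h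
  · exact (F3' hc hp hD hR' hR hcN h).symm

theorem F4 (hc : G.Connected) (hK : 1 ≤ K) (hD : Pieces G p l K (12 * K) N D)
    {c c' i i' : ℕ} {x x' : V}
    {R R' : Set V} (hR : RD G p l K D c x i R) (hR' : RD G p l K D c' x' i' R')
    (hcN : 6 * c' + 2 < N) (hlt : c < c') {z z' : V} (hz : z ∈ R) (hz' : z' ∈ R') :
    K ≤ G.dist z z' := by
  have h1 := hD.sep1 (6 * c + 2) (6 * c' + 2) (by omega) hcN x hR.xm x' hR'.xm hR.xs
  have h2 := hc.dist_triangle (u := x) (v := z) (w := x')
  have h3 := hc.dist_triangle (u := z) (v := z') (w := x')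
  rw [dist_comm (u := z') (v := x')] at h3
  have h4 := hR.near
  have h5 := hR'.near
  have h6 := hR.geo z hz
  have h7 := hR'.geo z' hz'
  omega

theorem F5 (hc : G.Connected) (hK : 1 ≤ K) (hp : IsoSeq G p l) {c i m : ℕ} {x : V}
    {R : Set V} (hR : RD G p l K D c x i R) (hm : m ≤ l) (h : m + 3 * K ≤ i ∨ i + 3 * K ≤ m)
    {z : V} (hz : z ∈ R) : K ≤ G.dist z (p m) := by
  have h1 := hR.nz z hz m hm
  have h2 := hc.dist_triangle (u := p m) (v := z) (w := p i)
  rw [dist_comm (u := p m) (v := z)] at h2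
  have h3 := iso_le hp hm hR.il
  omega

/-! ### the case of an increasing sequence -/

theorem link_part (hL : S_LINK) (hc : ∀ j < N, (G.induce (D j)).Connected)
    (he : ∀ j, j + 1 < N → ∃ a ∈ D j, ∃ b ∈ D (j + 1), G.Adj a b)
    (hd : ∀ j k, j < k → k < N → Disjoint (D j) (D k)) {c c' : ℕ} (hcc : c < c')
    (hN : 6 * c' + 4 < N) : ∃ L : Set V,
    (∃ (u v : V) (q : G.Walk u v), q.IsPath ∧ L = {z | z ∈ q.support} ∧ u ∈ Hub D c ∧
      v ∈ Hub D c' ∧ ∀ z ∈ q.support, z ∈ Hub D c ∪ Hub D c' → z = u ∨ z = v) ∧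
    ∀ z ∈ L, ∃ e, 6 * c + 4 ≤ e ∧ e ≤ 6 * c' ∧ z ∈ D e := by
  obtain ⟨u, v, q, hq, hu, hv, hs⟩ := hL V G N D hc he hd (6 * c + 4) (6 * c') (by omega) (by omega)
  refine ⟨{z | z ∈ q.support}, ⟨u, v, q, hq, rfl, ⟨_, by omega, by omega, hu⟩,
    ⟨_, by omega, by omega, hv⟩, ?_⟩, ?_⟩
  · intro z hz hzz
    rcases hs z hz with h | h | ⟨i, h1, h2, h3⟩
    · exact Or.inl h
    · exact Or.inr h
    · exfalso
      rcases hzz with ⟨e, h4, h5, h6⟩ | ⟨e, h4, h5, h6⟩
      · exact Set.disjoint_left.1 (hd e i (by omega) (by omega)) h6 h3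
      · exact Set.disjoint_left.1 (hd i e (by omega) (by omega)) h3 h6
  · intro z hz
    rcases hs z hz with h | h | ⟨i, h1, h2, h3⟩
    · exact ⟨_, le_rfl, by omega, h ▸ hu⟩
    · exact ⟨_, by omega, le_rfl, h ▸ hv⟩
    · exact ⟨i, by omega, by omega, h3⟩

/-- the part of the path at the rung with index `a` -/
def Bt (p : ℕ → V) (l K a : ℕ) : Set V := {z | ∃ m, m ≤ l ∧ m ≤ a + 3 * K ∧ a ≤ m + 3 * K ∧ z = p m}

/-- the part of the path between two rungs -/
def Lt (p : ℕ → V) (K a b : ℕ) : Set V := {z | ∃ m, a + 3 * K ≤ m ∧ m + 3 * K ≤ b ∧ z = p m}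

theorem Bt_conn (hp : IsoSeq G p l) {a : ℕ} (ha : a ≤ l) : (G.induce (Bt p l K a)).Connected := by
  obtain ⟨q, hq, hs⟩ := seg_path hp (a := a - 3 * K) (b := min l (a + 3 * K)) (by omega) (by omega)
  have h := q.connected_induce_support
  have e1 : {v | v ∈ q.support} = Bt p l K a := by
    ext z
    show z ∈ q.support ↔ _
    rw [hs]
    constructor
    · rintro ⟨m, h1, h2, rfl⟩
      exact ⟨m, by omega, by omega, by omega, rfl⟩
    · rintro ⟨m, h1, h2, h3, rfl⟩
      exact ⟨m, by omega, by omega, rfl⟩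
  rwa [e1] at h

theorem Lt_path (hp : IsoSeq G p l) {a b : ℕ} (hab : a + 8 * K < b) (hb : b ≤ l) :
    ∃ (u v : V) (q : G.Walk u v), q.IsPath ∧ Lt p K a b = {z | z ∈ q.support} ∧
      u ∈ Bt p l K a ∧ v ∈ Bt p l K b ∧
      ∀ z ∈ q.support, z ∈ Bt p l K a ∪ Bt p l K b → z = u ∨ z = v := by
  obtain ⟨q, hq, hs⟩ := seg_path hp (a := a + 3 * K) (b := b - 3 * K) (by omega) (by omega)
  refine ⟨_, _, q, hq, ?_, ⟨a + 3 * K, by omega, by omega, by omega, rfl⟩,
    ⟨b - 3 * K, by omega, by omega, by omega, rfl⟩, ?_⟩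
  · ext z
    show _ ↔ z ∈ q.support
    rw [hs]
    constructor
    · rintro ⟨m, h1, h2, rfl⟩
      exact ⟨m, by omega, by omega, rfl⟩
    · rintro ⟨m, h1, h2, rfl⟩
      exact ⟨m, by omega, by omega, rfl⟩
  · intro z hz hzz
    rw [hs] at hz
    obtain ⟨m, h1, h2, rfl⟩ := hz
    rcases hzz with ⟨m', h3, h4, h5, h6⟩ | ⟨m', h3, h4, h5, h6⟩
    · have h7 := iso_inj hp (by omega) h3 h6
      left
      congr 1
      omega
    · have h7 := iso_inj hp (by omega) h3 h6
      right
      congr 1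
      omega

theorem far_p (hp : IsoSeq G p l) {m m' : ℕ} (h' : m' ≤ l) (h : m + K ≤ m') :
    K ≤ G.dist (p m) (p m') := by
  have := hp m m' (by omega) h'
  omega

theorem inc (hG : S_GRID) (hL : S_LINK) {t : ℕ} (hc : G.Connected) (hK : 1 ≤ K)
    (hp : IsoSeq G p l) (hD : Pieces G p l K (12 * K) (6 * (t * t) + 10) D) (x : ℕ → V)
    (pi : ℕ → ℕ) (R : ℕ → Set V) (hR : ∀ c ≤ t * t, RD G p l K D c (x c) (pi c) (R c))
    (g : ℕ → ℕ) (hg : ∀ i j, i < j → j ≤ t → g i < g j) (hg2 : ∀ i ≤ t, g i ≤ t * t)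
    (hinc : ∀ i j, i < j → j ≤ t → pi (g i) < pi (g j)) :
    HasFatMinor K (pathGraph 2 □ pathGraph t) G := by
  -- the indices
  have hR' : ∀ i ≤ t, RD G p l K D (g i) (x (g i)) (pi (g i)) (R (g i)) :=
    fun i hi => hR _ (hg2 i hi)
  have hil : ∀ i ≤ t, pi (g i) ≤ l := fun i hi => (hR' i hi).il
  have h8 : ∀ i j, i < j → j ≤ t → pi (g i) + 8 * K < pi (g j) := by
    intro i j hij hj
    have h1 := hg2 i (by omega)
    have h2 := hg2 j hj
    have h3 := hg i j hij hj
    have h4 := hinc i j hij hj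
    rcases F3 hc hp hD (hR' i (by omega)) (hR' j hj) (by omega) (by omega) (by omega) with h | h
    · exact h
    · omega
  have hgm : ∀ i j, i ≤ j → j ≤ t → g i ≤ g j := by
    intro i j hij hj
    rcases hij.eq_or_lt with h | h
    · rw [h]
    · exact (hg i j h hj).le
  have hpm : ∀ i j, i ≤ j → j ≤ t → pi (g i) ≤ pi (g j) := by
    intro i j hij hj
    rcases hij.eq_or_lt with h | h
    · rw [h]
    · have := h8 i j h hj
      omega
  -- the links
  have hlk : ∀ i, ∃ L : Set V, i + 1 < t →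
      (∃ (u v : V) (q : G.Walk u v), q.IsPath ∧ L = {z | z ∈ q.support} ∧ u ∈ Hub D (g i) ∧
        v ∈ Hub D (g (i + 1)) ∧
        ∀ z ∈ q.support, z ∈ Hub D (g i) ∪ Hub D (g (i + 1)) → z = u ∨ z = v) ∧
      ∀ z ∈ L, ∃ e, 6 * g i + 4 ≤ e ∧ e ≤ 6 * g (i + 1) ∧ z ∈ D e := by
    intro i
    by_cases hi : i + 1 < t
    · have h1 := hg2 (i + 1) (by omega)
      obtain ⟨L, hL'⟩ := link_part hL hD.conn hD.edge hD.disj (hg i (i + 1) (by omega) (by omega))
        (by omega)
      exact ⟨L, fun _ => hL'⟩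
    · exact ⟨∅, fun h => absurd h hi⟩
  choose Lf hLf using hlk
  -- the hubs
  have hHN : ∀ i ≤ t, 6 * g i + 4 < 6 * (t * t) + 10 := by
    intro i hi
    have := hg2 i hi
    omega
  have hHO : ∀ i ≤ t, Hub D (g i) ⊆ Om G p l K := by
    rintro i hi z ⟨e, h1, h2, h3⟩
    have := hHN i hi
    exact hD.far e (by omega) h3
  have hLO : ∀ i, i + 1 < t → Lf i ⊆ Om G p l K := by
    intro i hi z hz
    obtain ⟨e, h1, h2, h3⟩ := (hLf i hi).2 z hz
    have := hHN (i + 1) (by omega)
    exact hD.far e (by omega) h3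
  refine hG V G K t (fun b i => cond b (Bt p l K (pi (g i))) (Hub D (g i)))
    (fun b i => cond b (Lt p K (pi (g i)) (pi (g (i + 1)))) (Lf i)) (fun i => R (g i))
    ?_ ?_ ?_ ?_ ?_ ?_ ?_ ?_ ?_ ?_ ?_ ?_
  · -- connected
    rintro (_ | _) i hi
    · have := hHN i hi.le
      exact union_conn hD.conn hD.edge (6 * g i) 4 (by omega)
    · exact Bt_conn hp (hil i hi.le)
  · -- the paths on the two sides
    rintro (_ | _) i hi
    · exact (hLf i hi).1
    · exact Lt_path hp (h8 i (i + 1) (by omega) (by omega)) (hil _ (by omega))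
  · -- the rungs
    intro i hi
    have hr := hR' i hi.le
    obtain ⟨u, v, q, hq, hRq, hu, hv, hs⟩ := hr.path
    refine ⟨u, v, q, hq, hRq, hu, ⟨pi (g i), hr.il, by omega, by omega, hv⟩, ?_⟩
    rintro z hz (hzz | ⟨m, h1, h2, h3, h4⟩)
    · exact Or.inl (hs z hz hzz)
    · right
      have h5 := hr.on z (by rw [hRq]; exact hz) m h1 h4
      rw [hv, h4, h5]
  · -- branch sets of one side
    rintro (_ | _) i j hij hj a ha b hb
    · obtain ⟨e, h1, h2, h3⟩ := ha
      obtain ⟨e', h1', h2', h3'⟩ := hb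
      have h4 := hg i j hij hj.le
      have h5 := hHN j hj.le
      exact F1 hc hK hD (e := e) (e' := e') (by omega) (by omega) h3 h3'
    · obtain ⟨m, h1, h2, h3, rfl⟩ := ha
      obtain ⟨m', h1', h2', h3', rfl⟩ := hb
      have h4 := h8 i j hij hj.le
      exact far_p hp h1' (by omega)
  · -- branch sets of different sides
    rintro i hi j hj a ha b ⟨m, h1, h2, h3, rfl⟩
    exact hHO i hi.le ha m h1
  · -- links of one side
    rintro (_ | _) i j hij hj a ha b hb
    · obtain ⟨e, h1, h2, h3⟩ := (hLf i (by omega)).2 a ha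
      obtain ⟨e', h1', h2', h3'⟩ := (hLf j hj).2 b hb
      have h4 := hgm (i + 1) j (by omega) (by omega)
      have h5 := hHN (j + 1) hj.le
      exact F1 hc hK hD (e := e) (e' := e') (by omega) (by omega) h3 h3'
    · obtain ⟨m, h1, h2, rfl⟩ := ha
      obtain ⟨m', h1', h2', rfl⟩ := hb
      have h4 := hpm (i + 1) j (by omega) (by omega)
      have h5 := hil (j + 1) hj.le
      exact far_p hp (by omega) (by omega)
  · -- links of different sides
    rintro i hi j hj a ha b ⟨m, h1, h2, rfl⟩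
    have h5 := hil (j + 1) hj.le
    exact hLO i hi ha m (by omega)
  · -- rungs
    intro i j hij hj a ha b hb
    have h5 := hHN j hj.le
    exact F4 hc hK hD (hR' i (by omega)) (hR' j hj.le) (by omega) (hg i j hij hj.le) ha hb
  · -- rungs and links
    rintro (_ | _) i hi j hj a ha b hb
    · obtain ⟨e, h1, h2, h3⟩ := (hLf j hj).2 b hb
      have h5 := hHN i hi.le
      have h6 := hHN (j + 1) hj.le
      refine F2 hc hK hD (hR' i hi.le) (by omega) (e := e) (by omega) ?_ ha h3
      by_cases h7 : i ≤ j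
      · have := hgm i j h7 (by omega)
        right
        omega
      · have := hgm (j + 1) i (by omega) (by omega)
        left
        omega
    · obtain ⟨m, h1, h2, rfl⟩ := hb
      have h5 := hil (j + 1) hj.le
      refine F5 hc hK hp (hR' i hi.le) (m := m) (by omega) ?_ ha
      by_cases h7 : i ≤ j
      · have := hpm i j h7 (by omega)
        right
        omega
      · have := hpm (j + 1) i (by omega) (by omega)
        left
        omega
  · -- branch sets and links of one side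
    rintro (_ | _) i hi j hj hne hne' a ha b hb
    · obtain ⟨e, h1, h2, h3⟩ := ha
      obtain ⟨e', h1', h2', h3'⟩ := (hLf j hj).2 b hb
      have h5 := hHN i hi.le
      have h6 := hHN (j + 1) hj.le
      by_cases h7 : i < j
      · have h8 := hg i j h7 (by omega)
        exact F1 hc hK hD (e := e) (e' := e') (by omega) (by omega) h3 h3'
      · have h8 := hg (j + 1) i (by omega) (by omega)
        rw [dist_comm]
        exact F1 hc hK hD (e := e') (e' := e) (by omega) (by omega) h3' h3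
    · obtain ⟨m, h1, h2, h3, rfl⟩ := ha
      obtain ⟨m', h1', h2', rfl⟩ := hb
      have h5 := hil (j + 1) hj.le
      by_cases h7 : i < j
      · have h9 := h8 i j h7 (by omega)
        exact far_p hp (by omega) (by omega)
      · have h9 := h8 (j + 1) i (by omega) (by omega)
        rw [dist_comm]
        exact far_p hp (by omega) (by omega)
  · -- branch sets and links of different sides
    rintro (_ | _) i hi j hj a ha b hb
    · obtain ⟨m, h1, h2, rfl⟩ := hb
      have h5 := hil (j + 1) hj.le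
      exact hHO i hi.le ha m (by omega)
    · obtain ⟨m, h1, h2, h3, rfl⟩ := ha
      rw [dist_comm]
      exact hLO j hj hb m h1
  · -- branch sets and rungs
    rintro (_ | _) i hi j hj hne a ha b hb
    · obtain ⟨e, h1, h2, h3⟩ := ha
      have h5 := hHN i hi.le
      have h6 := hHN j hj.le
      rw [dist_comm]
      refine F2 hc hK hD (hR' j hj.le) (by omega) (e := e) (by omega) ?_ hb h3
      rcases lt_or_gt_of_ne hne with h7 | h7
      · have := hg i j h7 hj.le
        left
        omega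
      · have := hg j i h7 hi.le
        right
        omega
    · obtain ⟨m, h1, h2, h3, rfl⟩ := ha
      rw [dist_comm]
      refine F5 hc hK hp (hR' j hj.le) (m := m) h1 ?_ hb
      rcases lt_or_gt_of_ne hne with h7 | h7
      · have := h8 i j h7 hj.le
        left
        omega
      · have := h8 j i h7 hi.le
        right
        omega

/-! ### reversal -/

theorem rev_Sp (x : V) (h : Sp G p l K x) : Sp G (fun i => p (l - i)) l K x := by
  obtain ⟨i, hi, h⟩ := h
  refine ⟨l - i, by omega, ?_⟩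
  show G.dist x (p (l - (l - i))) < 2 * K
  rw [show l - (l - i) = i by omega]
  exact h

theorem rev_Sp' (x : V) (h : Sp G (fun i => p (l - i)) l K x) : Sp G p l K x := by
  obtain ⟨i, hi, h⟩ := h
  exact ⟨l - i, by omega, h⟩

theorem rev_Om : Om G (fun i => p (l - i)) l K = Om G p l K := by
  ext x
  constructor
  · intro h i hi
    have := h (l - i) (by omega)
    simp only at this
    rwa [show l - (l - i) = i by omega] at this
  · intro h i hi
    exact h (l - i) (by omega)

theorem rev_iso (hp : IsoSeq G p l) : IsoSeq G (fun i => p (l - i)) l := by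
  intro i j hij hj
  show G.dist (p (l - i)) (p (l - j)) = j - i
  rw [dist_comm, hp (l - j) (l - i) (by omega) (by omega)]
  omega

theorem rev_pieces {L : ℕ} (h : Pieces G p l K L N D) :
    Pieces G (fun i => p (l - i)) l K L N D where
  conn := h.conn
  far := by rw [rev_Om]; exact h.far
  spec := fun j hj => by
    obtain ⟨x, hx, hs⟩ := h.spec j hj
    exact ⟨x, hx, rev_Sp x hs⟩
  edge := h.edge
  disj := h.disj
  sep1 := fun j k hjk hk x hx y hy hs => h.sep1 j k hjk hk x hx y hy (rev_Sp' x hs)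
  sep2 := fun j k hjk hk x hx y hy w hw => by
    rw [rev_Om] at hw
    exact h.sep2 j k hjk hk x hx y hy w hw

theorem rev_RD {c i : ℕ} {x : V} {R : Set V} (h : RD G p l K D c x i R) :
    RD G (fun i => p (l - i)) l K D c x (l - i) R := by
  have hil := h.il
  have e1 : p (l - (l - i)) = p i := by rw [show l - (l - i) = i by omega]
  refine ⟨h.xm, rev_Sp x h.xs, by omega, ?_, ?_, ?_, ?_, ?_, ?_⟩
  · show G.dist x (p (l - (l - i))) < 2 * K
    rw [e1]
    exact h.near
  · intro i' hi'
    show G.dist x (p (l - (l - i))) ≤ G.dist x (p (l - i'))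
    rw [e1]
    exact h.nx _ (by omega)
  · obtain ⟨u, v, q, h1, h2, h3, h4, h5⟩ := h.path
    refine ⟨u, v, q, h1, h2, h3, ?_, h5⟩
    show v = p (l - (l - i))
    rw [e1]
    exact h4
  · intro z hz i' hi' h1
    have := h.on z hz (l - i') (by omega) h1
    omega
  · intro z hz
    show G.dist x z + G.dist z (p (l - (l - i))) = G.dist x (p (l - (l - i)))
    rw [e1]
    exact h.geo z hz
  · intro z hz i' hi'
    show G.dist z (p (l - (l - i))) ≤ G.dist z (p (l - i'))
    rw [e1]
    exact h.nz z hz _ (by omega)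

/-- **LADDER** -/
theorem ladder (hES : S_ES) (hG : S_GRID) (hL : S_LINK) (hR : S_RUNG) : S_LADDER := by
  intro t K hK
  refine ⟨6 * (t * t) + 10, ?_⟩
  intro V _ G p l hc hp hD
  obtain ⟨D, hD⟩ := hD
  -- the rungs
  have hrung : ∀ c, ∃ (x : V) (i : ℕ) (R : Set V), c ≤ t * t → RD G p l K D c x i R := by
    intro c
    by_cases hct : c ≤ t * t
    · obtain ⟨x, hx, hs⟩ := hD.spec (6 * c + 2) (by omega)
      have hH : Hub D c ⊆ Om G p l K := by
        rintro z ⟨e, h1, h2, h3⟩
        exact hD.far e (by omega) h3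
      obtain ⟨i, hi, hn, u, q, hq, hu, h1, h2, h3, h4⟩ := hR V G p l K (Hub D c) x hc hK hp hH
        ⟨6 * c + 2, by omega, by omega, hx⟩
      refine ⟨x, i, {z | z ∈ q.support}, fun _ => ⟨hx, hs, hi, ?_, hn,
        ⟨u, p i, q, hq, rfl, hu, rfl, h1⟩, h2, h3, h4⟩⟩
      obtain ⟨j, hj, hlt⟩ := hs
      exact lt_of_le_of_lt (hn j hj) hlt
    · obtain ⟨x⟩ := hc.nonempty
      exact ⟨x, 0, ∅, fun h => absurd h hct⟩
  choose x pi R hRD using hrung
  obtain ⟨g, hg, hg2, hmono⟩ := hES t pi (by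
    intro i j hij hj h
    rcases F3 hc hp hD (hRD i (by omega)) (hRD j hj) (by omega) (by omega) (by omega) with h1 | h1 <;>
      omega)
  rcases hmono with hinc | hdec
  · exact inc hG hL hc hK hp hD x pi R hRD g hg hg2 hinc
  · refine inc hG hL hc hK (rev_iso hp) (rev_pieces hD) x (fun c => l - pi c) R
      (fun c hc' => rev_RD (hRD c hc')) g hg hg2 ?_
    intro i j hij hj
    have h1 := hdec i j hij hj
    have h2 := (hRD (g i) (hg2 i (by omega))).il
    show l - pi (g i) < l - pi (g j)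
    omega

end Pool.Agent.E8helper89.FL
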